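import Pool.Agent.Y594.NT.Stm
import Pool.Agent.H705R2.ABC.Main

set_option autoImplicit false

/-!
# Additive energies modulo `f` of sets of integers whose parts are bounded
-/

namespace Pool.Agent.Y891.NT

open Finset Pool.Agent.H785R2.ABC Pool.Agent.H705R2.ABC Pool.Agent.Y594.NT

/-- The energy of a set from the energies of the fibres of a label. -/
theorem total (P : Finset ℕ) (f : ℕ) (u : ℕ → ℕ) (Y : Finset ℕ) (hu : ∀ x ∈ P, u x ∈ Y) (W : ℝ)
    (hW : 0 ≤ W)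
    (h : ∀ z ∈ Y, (((((P.filter fun x => u x = z) ×ˢ (P.filter fun x => u x = z)).filter
      fun t => (t.1 : ZMod f) = (t.2 : ZMod f)).card : ℕ) : ℝ) ≤ W) :
    ((((P ×ˢ P).filter fun t => (t.1 : ZMod f) = (t.2 : ZMod f)).card : ℕ) : ℝ) ≤
      (Y.card : ℝ) ^ 2 * W := by
  classical
  set κ : ℕ → ℤ := fun n => (n : ℤ) % (f : ℤ) with hκ
  have hiff : ∀ a b : ℕ, (a : ZMod f) = (b : ZMod f) ↔ κ a = κ b := by
    intro a b
    have h1 := ZMod.intCast_eq_intCast_iff' (a : ℤ) (b : ℤ) f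
    rw [Int.cast_natCast, Int.cast_natCast] at h1
    exact h1
  have hsum : ((P ×ˢ P).filter fun t => (t.1 : ZMod f) = (t.2 : ZMod f)).card =
      ∑ z ∈ Y ×ˢ Y, (((P ×ˢ P).filter fun t => (t.1 : ZMod f) = (t.2 : ZMod f)).filter
        fun t => (u t.1, u t.2) = z).card := by
    apply card_eq_sum_card_fiberwise
    intro t ht
    have h1 : t ∈ (P ×ˢ P).filter fun t => (t.1 : ZMod f) = (t.2 : ZMod f) := ht
    rw [mem_filter, mem_product] at h1
    show (u t.1, u t.2) ∈ ((Y ×ˢ Y : Finset (ℕ × ℕ)) : Set (ℕ × ℕ))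
    rw [mem_coe, mem_product]
    exact ⟨hu _ h1.1.1, hu _ h1.1.2⟩
  have hfib : ∀ z ∈ Y ×ˢ Y, ((((P ×ˢ P).filter fun t => (t.1 : ZMod f) = (t.2 : ZMod f)).filter
        fun t => (u t.1, u t.2) = z).card : ℝ) ≤ W := by
    intro z hz
    rw [mem_product] at hz
    have h1 : (((P ×ˢ P).filter fun t => (t.1 : ZMod f) = (t.2 : ZMod f)).filter
        fun t => (u t.1, u t.2) = z) =
        ((P.filter fun x => u x = z.1) ×ˢ (P.filter fun x => u x = z.2)).filter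
          fun t => κ t.1 = κ t.2 := by
      ext t
      simp only [mem_filter, mem_product, Prod.ext_iff, hiff]
      tauto
    rw [h1]
    have h2 := Est.cs (P.filter fun x => u x = z.1) (P.filter fun x => u x = z.2) κ κ
    have h3 := h z.1 hz.1
    have h4 := h z.2 hz.2
    simp only [hiff] at h3 h4
    refine le_of_sq_le_sq (h2.trans ?_) hW
    rw [sq]
    exact mul_le_mul h3 h4 (Nat.cast_nonneg _) hW
  rw [hsum]
  push_cast
  calc _ ≤ ∑ _z ∈ Y ×ˢ Y, W := sum_le_sum hfib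
    _ = (Y.card : ℝ) ^ 2 * W := by
      rw [sum_const, card_product, nsmul_eq_mul]; push_cast; ring

theorem coprime_rd {K n f : ℕ} (hn : 1 ≤ n) (hc : Nat.Coprime n f) (S : Finset (Fin (K + 1))) :
    Nat.Coprime (rd K n S) f :=
  Nat.Coprime.coprime_dvd_left (Est.rd_dvd_self basics K n hn S) hc

theorem coprime_part {K n f : ℕ} (hn : 1 ≤ n) (hc : Nat.Coprime n f) (S : Finset (Fin (K + 1))) :
    Nat.Coprime (part K n S) f :=
  Nat.Coprime.coprime_dvd_left (basics.part_dvd K n S hn) hc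

theorem numeric {D4 D X e ε l Y W V : ℝ} (hX : 0 < X) (he : e = ε / 3) (hY0 : 0 ≤ Y)
    (hY : Y ≤ D4 * X ^ e * l) (hW : W = D * X ^ e * V) (hD : 0 ≤ D) (hV : 0 ≤ V) :
    Y ^ 2 * W ≤ D4 ^ 2 * D * X ^ ε * (l ^ 2 * V) := by
  have h1 : Y ^ 2 ≤ (D4 * X ^ e * l) ^ 2 := pow_le_pow_left₀ hY0 hY 2
  have h2 : X ^ ε = (X ^ e) ^ 3 := by
    rw [← Real.rpow_natCast, ← Real.rpow_mul hX.le]
    congr 1
    rw [he]
    push_cast
    ring
  have h3 : 0 ≤ W := by rw [hW]; positivity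
  calc Y ^ 2 * W ≤ (D4 * X ^ e * l) ^ 2 * W := mul_le_mul_of_nonneg_right h1 h3
    _ = D4 ^ 2 * D * X ^ ε * (l ^ 2 * V) := by rw [hW, h2]; ring

/-! ### ENJ -/

theorem enj : S_ENJ := by
  classical
  intro K ε hε
  have hJ : StmtJ := stmtJ_of (stmtPwr_of (stmtTwo_of stmtD') stmtFac)
  obtain ⟨D4, hD4, h4⟩ := stmtA4' (ε / 3) (by linarith)
  obtain ⟨DJ, hDJ, hJ'⟩ := hJ K (ε / 3) (by linarith)
  refine ⟨D4 ^ 2 * DJ, by positivity, ?_⟩
  intro X f hX hf hfX N hN hprod l hl P hP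
  set Y : Finset ℕ := (Icc 1 X).filter fun d => (rad d : ℝ) ≤ l with hY
  set V : ℝ := (∏ i, (N i : ℝ)) * (1 + (∏ i, (N i : ℝ)) ^ ((3 : ℝ) / 2) / f) with hV
  have hV0 : 0 ≤ V := by rw [hV]; positivity
  have hX0 : (0 : ℝ) < X := by exact_mod_cast hX
  have hYcard : (Y.card : ℝ) ≤ D4 * (X : ℝ) ^ (ε / 3) * l := h4 X hX l (by linarith)
  refine (total P f (fun x => part K x {Fin.last K}) Y ?_ (DJ * (X : ℝ) ^ (ε / 3) * V)
    (by positivity) ?_).trans
    (numeric hX0 rfl (Nat.cast_nonneg _) hYcard rfl hDJ.le hV0)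
  · intro x hx
    obtain ⟨h1, h2, h3, -, h5⟩ := hP x hx
    rw [hY, mem_filter, mem_Icc]
    refine ⟨⟨basics.part_pos K _ _, (Nat.le_of_dvd h1 (basics.part_dvd K _ _ h1)).trans h2⟩, ?_⟩
    rw [basics.rad_part K _ _ h1]
    exact h5
  · intro z _
    set Qz := ((P.filter fun x => part K x {Fin.last K} = z) ×ˢ
      (P.filter fun x => part K x {Fin.last K} = z)).filter
      fun t => (t.1 : ZMod f) = (t.2 : ZMod f) with hQz
    have hmem : ∀ t ∈ Qz, t.1 ∈ P ∧ part K t.1 {Fin.last K} = z ∧ t.2 ∈ P ∧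
        part K t.2 {Fin.last K} = z ∧ (t.1 : ZMod f) = (t.2 : ZMod f) := by
      intro t ht
      rw [hQz, mem_filter, mem_product, mem_filter, mem_filter] at ht
      exact ⟨ht.1.1.1, ht.1.1.2, ht.1.2.1, ht.1.2.2, ht.2⟩
    set G : ℕ × ℕ → (Fin K → ℕ) × (Fin K → ℕ) :=
      fun x => (fun i => rd K x.1 {i.castSucc}, fun i => rd K x.2 {i.castSucc}) with hG
    have hinj : Set.InjOn G Qz := by
      intro x hx x' hx' hxx
      obtain ⟨a1, a2, a3, a4, -⟩ := hmem x hx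
      obtain ⟨b1, b2, b3, b4, -⟩ := hmem x' hx'
      have e1 := congrArg Prod.fst hxx
      have e2 := congrArg Prod.snd hxx
      simp only [hG] at e1 e2
      apply Prod.ext
      · rw [Est.fact basics K x.1 (hP _ a1).1, Est.fact basics K x'.1 (hP _ b1).1, a2, b2]
        congr 1
        apply prod_congr rfl
        intro i _
        rw [congrFun e1 i]
      · rw [Est.fact basics K x.2 (hP _ a3).1, Est.fact basics K x'.2 (hP _ b3).1, a4, b4]
        congr 1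
        apply prod_congr rfl
        intro i _
        rw [congrFun e2 i]
    rw [← card_image_of_injOn hinj]
    refine hJ' X f hX hf hfX N hN hprod 1 isUnit_one _ ?_
    intro y hy
    obtain ⟨x, hx, rfl⟩ := mem_image.1 hy
    obtain ⟨a1, a2, a3, a4, a5⟩ := hmem x hx
    obtain ⟨p1, -, p3, p4, -⟩ := hP _ a1
    obtain ⟨q1, -, q3, q4, -⟩ := hP _ a3
    refine ⟨fun i => ⟨basics.rd_pos _ _ _, p4 i, coprime_rd p1 p3 _⟩,
      fun i => ⟨basics.rd_pos _ _ _, q4 i, coprime_rd q1 q3 _⟩, ?_⟩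
    have hz : IsUnit ((z : ℕ) : ZMod f) := by
      rw [ZMod.isUnit_iff_coprime, ← a2]
      exact coprime_part p1 p3 _
    rw [Est.fact basics K x.1 p1, Est.fact basics K x.2 q1, a2, a4] at a5
    push_cast at a5
    rw [one_mul]
    exact hz.mul_right_cancel a5

/-! ### ENT -/

theorem fact2 {K : ℕ} (hK : 2 ≤ K) (n : ℕ) (hn : 1 ≤ n) :
    n = rd K n {0} * rd K n {1} ^ 2 * part K n {0, 1}ᶜ := by
  have hv : ((1 : Fin (K + 1)) : ℕ) = 1 := by
    obtain ⟨k, rfl⟩ : ∃ k, K = k + 1 := ⟨K - 1, by omega⟩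
    simp
  have h01 : (0 : Fin (K + 1)) ≠ 1 := by
    intro h
    have h1 := congrArg Fin.val h
    rw [Fin.val_zero, hv] at h1
    omega
  have h1 := basics.part_prod K n {0, 1}
  rw [prod_pair h01, basics.part_single K n 0 (by rw [Fin.val_zero]; omega),
    basics.part_single K n 1 (by rw [hv]; omega), hv, Fin.val_zero, zero_add, pow_one] at h1
  conv_lhs => rw [← basics.part_mul K n {0, 1} hn, h1]

theorem ent : S_ENT := by
  classical
  intro K hK ε hε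
  have hT : StmtTwo := stmtTwo_of stmtD'
  obtain ⟨D4, hD4, h4⟩ := stmtA4' (ε / 3) (by linarith)
  obtain ⟨DT, hDT, hT'⟩ := hT 2 (ε / 3) (by linarith)
  refine ⟨D4 ^ 2 * DT, by positivity, ?_⟩
  intro X f hX hf hfX N T hN hNX hT1 hTX l hl P hP
  set Y : Finset ℕ := (Icc 1 X).filter fun d => (rad d : ℝ) ≤ l with hY
  set V : ℝ := (N : ℝ) * T * (1 + (N : ℝ) * T / f) with hV
  have hV0 : 0 ≤ V := by rw [hV]; positivity
  have hX0 : (0 : ℝ) < X := by exact_mod_cast hX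
  have hYcard : (Y.card : ℝ) ≤ D4 * (X : ℝ) ^ (ε / 3) * l := h4 X hX l (by linarith)
  refine (total P f (fun x => part K x {0, 1}ᶜ) Y ?_ (DT * (X : ℝ) ^ (ε / 3) * V)
    (by positivity) ?_).trans
    (numeric hX0 rfl (Nat.cast_nonneg _) hYcard rfl hDT.le hV0)
  · intro x hx
    obtain ⟨h1, h2, h3, -, -, h5⟩ := hP x hx
    rw [hY, mem_filter, mem_Icc]
    refine ⟨⟨basics.part_pos K _ _, (Nat.le_of_dvd h1 (basics.part_dvd K _ _ h1)).trans h2⟩, ?_⟩
    rw [basics.rad_part K _ _ h1]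
    exact h5
  · intro z _
    set Qz := ((P.filter fun x => part K x {0, 1}ᶜ = z) ×ˢ
      (P.filter fun x => part K x {0, 1}ᶜ = z)).filter
      fun t => (t.1 : ZMod f) = (t.2 : ZMod f) with hQz
    have hmem : ∀ t ∈ Qz, t.1 ∈ P ∧ part K t.1 {0, 1}ᶜ = z ∧ t.2 ∈ P ∧
        part K t.2 {0, 1}ᶜ = z ∧ (t.1 : ZMod f) = (t.2 : ZMod f) := by
      intro t ht
      rw [hQz, mem_filter, mem_product, mem_filter, mem_filter] at ht
      exact ⟨ht.1.1.1, ht.1.1.2, ht.1.2.1, ht.1.2.2, ht.2⟩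
    set G : ℕ × ℕ → (ℕ × ℕ) × (ℕ × ℕ) :=
      fun x => ((rd K x.1 {0}, rd K x.2 {0}), (rd K x.1 {1}, rd K x.2 {1})) with hG
    have hinj : Set.InjOn G Qz := by
      intro x hx x' hx' hxx
      obtain ⟨a1, a2, a3, a4, -⟩ := hmem x hx
      obtain ⟨b1, b2, b3, b4, -⟩ := hmem x' hx'
      simp only [hG, Prod.mk.injEq] at hxx
      obtain ⟨⟨e1, e2⟩, e3, e4⟩ := hxx
      apply Prod.ext
      · rw [fact2 hK x.1 (hP _ a1).1, fact2 hK x'.1 (hP _ b1).1, a2, b2, e1, e3]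
      · rw [fact2 hK x.2 (hP _ a3).1, fact2 hK x'.2 (hP _ b3).1, a4, b4, e2, e4]
    rw [← card_image_of_injOn hinj]
    refine hT' 1 2 le_rfl (by norm_num) (by norm_num) le_rfl X f N T hX hf hfX hN hNX hT1 hTX _ ?_
    intro y hy
    obtain ⟨x, hx, rfl⟩ := mem_image.1 hy
    obtain ⟨a1, a2, a3, a4, a5⟩ := hmem x hx
    obtain ⟨p1, -, p3, p4, p5, -⟩ := hP _ a1
    obtain ⟨q1, -, q3, q4, q5, -⟩ := hP _ a3
    refine ⟨basics.rd_pos _ _ _, p4, basics.rd_pos _ _ _, q4, basics.rd_pos _ _ _, p5,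
      basics.rd_pos _ _ _, q5, coprime_rd p1 p3 _, coprime_rd q1 q3 _, coprime_rd p1 p3 _,
      coprime_rd q1 q3 _, ?_⟩
    have hz : IsUnit ((z : ℕ) : ZMod f) := by
      rw [ZMod.isUnit_iff_coprime, ← a2]
      exact coprime_part p1 p3 _
    rw [fact2 hK x.1 p1, fact2 hK x.2 q1, a2, a4] at a5
    push_cast at a5
    rw [pow_one, pow_one]
    exact hz.mul_right_cancel a5

end Pool.Agent.Y891.NT
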